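import Pool.Agent.Helper45_PGF.Stmts

/-!
GD: the graded dimension count (squad PGF).
-/

set_option autoImplicit false

open scoped Polynomial

universe u v v₁ v₂ v₃

namespace Pool.Agent.PGF.H66

section core

variable {k : Type*} [Field k] {I : Type*} (W : I → ℕ)

open MvPolynomial in
theorem whc_mul {F : MvPolynomial I k} {m : ℕ} (hF : F.IsWeightedHomogeneous W m) (n : ℕ)
    (h : MvPolynomial I k) : weightedHomogeneousComponent W (n + m) (h * F) =
      weightedHomogeneousComponent W n h * F := by
  classical
  induction h using MvPolynomial.induction_on' with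
  | monomial d c =>
    have h1 : (monomial d c : MvPolynomial I k).IsWeightedHomogeneous W (Finsupp.weight W d) :=
      isWeightedHomogeneous_monomial W d c rfl
    by_cases hn : Finsupp.weight W d = n
    · subst hn
      rw [h1.weightedHomogeneousComponent_same, (h1.mul hF).weightedHomogeneousComponent_same]
    · rw [h1.weightedHomogeneousComponent_ne n (Ne.symm hn), zero_mul]
      refine (h1.mul hF).weightedHomogeneousComponent_ne (n + m) ?_
      omega
  | add p q hp hq => rw [add_mul, map_add, map_add, hp, hq, add_mul]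

open MvPolynomial in
theorem whc_mul_zero {F : MvPolynomial I k} {m : ℕ} (hF : F.IsWeightedHomogeneous W m) {n : ℕ}
    (hn : n < m) (h : MvPolynomial I k) : weightedHomogeneousComponent W n (h * F) = 0 := by
  classical
  induction h using MvPolynomial.induction_on' with
  | monomial d c =>
    have h1 : (monomial d c : MvPolynomial I k).IsWeightedHomogeneous W (Finsupp.weight W d) :=
      isWeightedHomogeneous_monomial W d c rfl
    refine (h1.mul hF).weightedHomogeneousComponent_ne n ?_
    omega
  | add p q hp hq => rw [add_mul, map_add, hp, hq, add_zero]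

variable [Finite I] {A : Type*} [CommRing A] [IsDomain A] [Algebra k A]
  (β : MvPolynomial I k →ₐ[k] A)

open MvPolynomial in
theorem core (hβ : Function.Surjective β)
    (hker : ∀ G, β G = 0 → ∀ n, β (weightedHomogeneousComponent W n G) = 0)
    {T : Type*} [Fintype T] (n : T → ℕ) (F : T → MvPolynomial I k) (hn : ∀ t, 0 < n t)
    (hF : ∀ t, (F t).IsWeightedHomogeneous W (n t)) (M : ℕ)
    (hM : ∀ s, ∃ (q : MvPolynomial I k) (g : T → MvPolynomial I k), β q = 0 ∧
      (X s : MvPolynomial I k) ^ M = q + ∑ t, g t * F t) :
    Algebra.trdeg k A ≤ Fintype.card T := by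
  classical
  set B : Subalgebra k A := Algebra.adjoin k (Set.range (fun t => β (F t))) with hB
  set mon : (I → Fin M) → A := fun d =>
    β (monomial (Finsupp.equivFunOnFinite.symm (fun s => (d s : ℕ))) 1) with hmon
  set V : Submodule B A := Submodule.span B (Set.range mon) with hV
  have hsm : ∀ (c : k) (x : A), x ∈ V → algebraMap k A c * x ∈ V := fun c x hx =>
    V.smul_mem (algebraMap k B c) hx
  have key : ∀ (m : ℕ) (G : MvPolynomial I k), G.IsWeightedHomogeneous W m → β G ∈ V := by
    intro m
    induction m using Nat.strong_induction_on with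
    | _ m ih =>
      intro G hG
      rw [← G.support_sum_monomial_coeff, map_sum]
      refine Submodule.sum_mem _ fun d hd => ?_
      have hwd : Finsupp.weight W d = m := hG (mem_support_iff.mp hd)
      have h1 : (monomial d (G.coeff d) : MvPolynomial I k) = C (G.coeff d) * monomial d 1 := by
        rw [C_mul_monomial, mul_one]
      rw [h1, map_mul]
      have h2 : β (C (G.coeff d)) = algebraMap k A (G.coeff d) := by
        rw [← MvPolynomial.algebraMap_eq, AlgHom.commutes]
      rw [h2]
      refine hsm _ _ ?_
      by_cases hd2 : ∀ s, d s < M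
      · refine Submodule.subset_span ⟨fun s => ⟨d s, hd2 s⟩, ?_⟩
        have h9 : (Finsupp.equivFunOnFinite.symm fun s => d s) = d := by
          ext s
          rfl
        simp only [hmon]
        rw [h9]
      · push Not at hd2
        obtain ⟨s, hs⟩ := hd2
        obtain ⟨q, g, hq, hqg⟩ := hM s
        set m' : MvPolynomial I k := monomial (d - Finsupp.single s M) 1 with hm'
        have h3 : (monomial d 1 : MvPolynomial I k) = q * m' + ∑ t, (g t * m') * F t := by
          have h4 : (monomial d 1 : MvPolynomial I k) = X s ^ M * m' := by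
            rw [hm', X_pow_eq_monomial, monomial_mul, mul_one, add_tsub_cancel_of_le]
            rw [Finsupp.single_le_iff]
            exact hs
          rw [h4, hqg, add_mul, Finset.sum_mul]
          congr 1
          refine Finset.sum_congr rfl fun t _ => ?_
          ring
        have h5 : (monomial d 1 : MvPolynomial I k) =
            weightedHomogeneousComponent W m (monomial d 1) := by
          rw [IsWeightedHomogeneous.weightedHomogeneousComponent_same]
          exact isWeightedHomogeneous_monomial W d 1 hwd
        rw [h5, h3, map_add, map_sum, map_add, map_sum, hker _ (by rw [map_mul, hq, zero_mul]),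
          zero_add]
        refine Submodule.sum_mem _ fun t _ => ?_
        by_cases ht : n t ≤ m
        · obtain ⟨m₁, rfl⟩ := Nat.exists_eq_add_of_le ht
          rw [add_comm (n t) m₁, whc_mul W (hF t) m₁, map_mul, mul_comm]
          have h6 := ih m₁ (by have := hn t; omega)
            (weightedHomogeneousComponent W m₁ (g t * m'))
            (weightedHomogeneousComponent_isWeightedHomogeneous _ _)
          exact V.smul_mem (⟨β (F t), Algebra.subset_adjoin ⟨t, rfl⟩⟩ : B) h6
        · rw [whc_mul_zero W (hF t) (by omega), map_zero]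
          exact V.zero_mem
  have hVtop : V = ⊤ := by
    rw [eq_top_iff]
    rintro x -
    obtain ⟨G, rfl⟩ := hβ x
    rw [← G.support_sum_monomial_coeff, map_sum]
    exact Submodule.sum_mem _ fun d _ => key (Finsupp.weight W d) _
      (isWeightedHomogeneous_monomial W d _ rfl)
  have hfin : Module.Finite B A := by
    refine ⟨?_⟩
    rw [Submodule.fg_def]
    exact ⟨Set.range mon, Set.finite_range _, hVtop⟩
  have hint : Algebra.IsIntegral B A := Algebra.IsIntegral.of_finite B A
  have halg : Algebra.IsAlgebraic B A := hint.isAlgebraic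
  have h7 := Algebra.IsAlgebraic.trdeg_le_cardinalMk k (A := A) (Set.range (fun t => β (F t)))
  refine h7.trans ?_
  have : Fintype (Set.range (fun t => β (F t))) := Fintype.ofFinite _
  rw [Cardinal.mk_fintype, Nat.cast_le]
  exact Fintype.card_le_of_surjective _ Set.rangeFactorization_surjective

end core

open MvPolynomial in
theorem gd : GDStmt.{u, v, v₁, v₂, v₃} := by
  intro k E _ _ _ _ S Θ T _ _ _ ω ω' a N c n F hω hω' hc hn hF hcard
  classical
  by_contra hcon
  push Not at hcon
  set W : S ⊕ Θ → ℕ := Sum.elim ω ω' with hW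
  set a' : S ⊕ Θ → MvPolynomial Θ E := Sum.elim (fun s => MvPolynomial.C (a s)) MvPolynomial.X
    with ha'
  set α : MvPolynomial (S ⊕ Θ) k →ₐ[k] (MvPolynomial Θ E)[X] :=
    MvPolynomial.aeval (fun s => Polynomial.C (a' s) * Polynomial.X ^ W s) with hα
  -- the components
  have hmono : ∀ (d : S ⊕ Θ →₀ ℕ) (r : k), α (monomial d r) =
      Polynomial.C (aeval a' (monomial d r)) * Polynomial.X ^ (Finsupp.weight W d) := by
    intro d r
    rw [hα, aeval_monomial, aeval_monomial, Finsupp.prod, Finsupp.prod, Finsupp.weight_apply,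
      Finsupp.sum]
    simp only [mul_pow, Finset.prod_mul_distrib, ← pow_mul, smul_eq_mul, map_mul, map_prod,
      map_pow, mul_assoc]
    congr 2
    rw [← Finset.prod_pow_eq_pow_sum]
    refine Finset.prod_congr rfl fun s _ => ?_
    rw [mul_comm]
  have hcomp : ∀ (m : ℕ) (G : MvPolynomial (S ⊕ Θ) k),
      α (weightedHomogeneousComponent W m G) =
        Polynomial.C ((α G).coeff m) * Polynomial.X ^ m := by
    intro m G
    induction G using MvPolynomial.induction_on' with
    | monomial d r =>
      have h1 : (monomial d r : MvPolynomial (S ⊕ Θ) k).IsWeightedHomogeneous W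
          (Finsupp.weight W d) := isWeightedHomogeneous_monomial W d r rfl
      by_cases hm : Finsupp.weight W d = m
      · subst hm
        rw [h1.weightedHomogeneousComponent_same, hmono, Polynomial.coeff_C_mul_X_pow, if_pos rfl]
      · rw [h1.weightedHomogeneousComponent_ne m (Ne.symm hm), map_zero, hmono,
          Polynomial.coeff_C_mul_X_pow, if_neg (Ne.symm hm), Polynomial.C_0, zero_mul]
    | add p q hp hq => rw [map_add, map_add, hp, hq, map_add, Polynomial.coeff_add,
        Polynomial.C_add, add_mul]
  set Q : Ideal (MvPolynomial (S ⊕ Θ) k) := RingHom.ker α with hQ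
  have : Q.IsPrime := RingHom.ker_isPrime _
  set β : MvPolynomial (S ⊕ Θ) k →ₐ[k] (MvPolynomial (S ⊕ Θ) k ⧸ Q) := Ideal.Quotient.mkₐ k Q
    with hβ
  have hβα : ∀ G, β G = 0 ↔ α G = 0 := by
    intro G
    rw [hβ, Ideal.Quotient.mkₐ_eq_mk, Ideal.Quotient.eq_zero_iff_mem, hQ, RingHom.mem_ker]
  -- the zero locus
  set J : Ideal (MvPolynomial (S ⊕ Θ) k) := Q ⊔ Ideal.span (Set.range F) with hJ
  have hX : ∀ s : S ⊕ Θ, (X s : MvPolynomial (S ⊕ Θ) k) ∈ J.radical := by
    intro s
    rw [← vanishingIdeal_zeroLocus_eq_radical (K := k), mem_vanishingIdeal_iff]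
    intro v hv
    rw [mem_zeroLocus_iff] at hv
    by_cases hv0 : v = 0
    · rw [hv0, aeval_X]
      rfl
    · exfalso
      obtain ⟨G, hG1, hG2⟩ := hcon v hv0 (fun t => hv _ (Ideal.mem_sup_right
        (Ideal.subset_span ⟨t, rfl⟩)))
      apply hG2
      have h2 : α (rename Sum.inl G) = 0 := by
        rw [hα, aeval_rename]
        have h3 : ((fun s => Polynomial.C (a' s) * Polynomial.X ^ W s) ∘ Sum.inl :
            S → (MvPolynomial Θ E)[X]) = fun s => Polynomial.mapAlgHom
              (Algebra.ofId E (MvPolynomial Θ E))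
                (Polynomial.C (a s) * Polynomial.X ^ ω s : E[X]) := by
          funext s
          simp only [Function.comp, ha', hW, Sum.elim_inl, map_mul, map_pow]
          simp [Polynomial.mapAlgHom, Algebra.ofId, MvPolynomial.algebraMap_eq]
        rw [h3]
        have h4 := MvPolynomial.comp_aeval_apply (R := k)
          (f := fun s => (Polynomial.C (a s) * Polynomial.X ^ ω s : E[X]))
          ((Polynomial.mapAlgHom (Algebra.ofId E (MvPolynomial Θ E))).restrictScalars k) G
        rw [hG1, map_zero] at h4
        exact h4.symm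
      have h5 := hv _ (Ideal.mem_sup_left (show rename Sum.inl G ∈ Q from h2))
      rw [aeval_rename] at h5
      exact h5
  have hX2 : ∃ M : ℕ, ∀ s : S ⊕ Θ, (X s : MvPolynomial (S ⊕ Θ) k) ^ M ∈ J := by
    choose m hm using fun s => Ideal.mem_radical_iff.mp (hX s)
    refine ⟨∑ s, m s, fun s => ?_⟩
    exact Ideal.pow_mem_of_pow_mem _ (hm s) (Finset.single_le_sum (fun _ _ => Nat.zero_le _)
      (Finset.mem_univ s))
  obtain ⟨M, hM⟩ := hX2
  have hub := core W β Ideal.Quotient.mk_surjective (fun G hG m => by
    rw [hβα] at hG ⊢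
    rw [hcomp, hG, Polynomial.coeff_zero, Polynomial.C_0, zero_mul]) n F hn hF M (fun s => by
      obtain ⟨q, hq, r, hr, hqr⟩ := Submodule.mem_sup.mp (hM s)
      obtain ⟨g, hg⟩ := (Ideal.mem_span_range_iff_exists_fun).mp hr
      refine ⟨q, g, (hβα q).mpr hq, ?_⟩
      rw [hg, hqr])
  -- the lower bound
  have hind : AlgebraicIndependent k (Sum.elim (MvPolynomial.X : Θ → MvPolynomial Θ E)
      (algebraMap E (MvPolynomial Θ E) ∘ fun j => a (c j))) :=
    hc.sumElim_comp (MvPolynomial.algebraicIndependent_X Θ E)
  set f : (MvPolynomial (S ⊕ Θ) k ⧸ Q) →ₐ[k] MvPolynomial Θ E :=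
    ((Polynomial.aeval (1 : MvPolynomial Θ E)).restrictScalars k).comp (Ideal.kerLiftAlg α)
    with hf
  have hind2 : AlgebraicIndependent k (fun s : Θ ⊕ Fin N =>
      β (X (Sum.elim (fun θ => Sum.inr θ) (fun j => Sum.inl (c j)) s))) := by
    refine AlgebraicIndependent.of_comp f ?_
    have h6 : (f ∘ fun s : Θ ⊕ Fin N =>
        β (X (Sum.elim (fun θ => Sum.inr θ) (fun j => Sum.inl (c j)) s))) =
        Sum.elim (MvPolynomial.X : Θ → MvPolynomial Θ E)
          (algebraMap E (MvPolynomial Θ E) ∘ fun j => a (c j)) := by
      funext s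
      have h7 : ∀ G, f (β G) = Polynomial.aeval (1 : MvPolynomial Θ E) (α G) := fun G => rfl
      rw [Function.comp, h7, hα, aeval_X]
      rcases s with θ | j
      · simp [ha']
      · simp [ha', MvPolynomial.algebraMap_eq]
    rw [h6]
    exact hind
  have hlb := hind2.lift_cardinalMk_le_trdeg
  have h8 := hlb.trans (Cardinal.lift_le.mpr hub)
  rw [Cardinal.mk_fintype, Cardinal.lift_natCast, Cardinal.lift_natCast, Nat.cast_le,
    Fintype.card_sum, Fintype.card_fin] at h8
  omega

end Pool.Agent.PGF.H66
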